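import Pool.Agent.W769.SR.Stm

/-!
# SR-ROG: the Rogosinski inequality
-/

set_option autoImplicit false

namespace Pool.Agent.W366.SR.Rog

open Metric Set Filter Topology Real Pool.Agent.W769.SR

/-- the Taylor polynomial -/
noncomputable def tp (f : ℂ → ℂ) (n : ℕ) : Polynomial ℂ :=
  ∑ k ∈ Finset.range n, Polynomial.C (co f k) * Polynomial.X ^ k

lemma tp_coeff (f : ℂ → ℂ) (n k : ℕ) : (tp f n).coeff k = if k < n then co f k else 0 := by
  unfold tp
  rw [Polynomial.finsetSum_coeff]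
  simp only [Polynomial.coeff_C_mul_X_pow]
  rw [Finset.sum_ite_eq (Finset.range n) k]
  simp only [Finset.mem_range]

lemma tp_eval (f : ℂ → ℂ) (n : ℕ) (w : ℂ) :
    (tp f n).eval w = ∑ i ∈ Finset.range n, (w ^ i / i.factorial) • iteratedDeriv i f 0 := by
  unfold tp co
  rw [Polynomial.eval_finsetSum]
  refine Finset.sum_congr rfl fun i _ => ?_
  rw [Polynomial.eval_mul, Polynomial.eval_C, Polynomial.eval_pow, Polynomial.eval_X, smul_eq_mul]
  ring

/-- the first coefficients of a composition -/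
lemma co_comp {φ f : ℂ → ℂ} (hφ : AnalyticAt ℂ φ 0) (h0 : φ 0 = 0) (hf : AnalyticAt ℂ f 0) {n k : ℕ}
    (hk : k < n) : co (fun z => f (φ z)) k = co (fun z => (tp f n).eval (φ z)) k := by
  obtain ⟨F, hF, hfF⟩ := hf.exists_eventuallyEq_sum_add_pow_mul n
  obtain ⟨ψ, hψ, hφψ⟩ := hφ.exists_eventuallyEq_sum_add_pow_mul 1
  have hφc : Tendsto φ (𝓝 0) (𝓝 0) := by
    have := hφ.continuousAt.tendsto
    rwa [h0] at this
  have hFφ : AnalyticAt ℂ (fun z => F (φ z)) 0 := by
    have : AnalyticAt ℂ F (φ 0) := by rw [h0]; exact hF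
    exact this.comp hφ
  have hPφ : AnalyticAt ℂ (fun z => (tp f n).eval (φ z)) 0 := by
    have e : (fun z => (tp f n).eval (φ z)) = fun z => Polynomial.aeval (φ z) (tp f n) := by
      funext z
      rw [Polynomial.coe_aeval_eq_eval]
    rw [e]
    exact hφ.aeval_polynomial _
  have hD : AnalyticAt ℂ (fun z => φ z ^ n * F (φ z)) 0 := (hφ.pow n).mul hFφ
  have hord : ∀ i < n, iteratedDeriv i (fun z => φ z ^ n * F (φ z)) 0 = 0 := by
    rw [← natCast_le_analyticOrderAt_iff_iteratedDeriv_eq_zero hD, natCast_le_analyticOrderAt hD]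
    refine ⟨fun z => ψ z ^ n * F (φ z), (hψ.pow n).mul hFφ, ?_⟩
    filter_upwards [hφψ] with z hz
    have e : φ z = z * ψ z := by
      rw [hz]
      simp [h0]
    rw [sub_zero, smul_eq_mul, ← mul_assoc, ← mul_pow, ← e]
  have hev : (fun z => f (φ z)) =ᶠ[𝓝 0]
      (fun z => (tp f n).eval (φ z) + φ z ^ n * F (φ z)) := by
    filter_upwards [hφc.eventually hfF] with z hz
    rw [hz, tp_eval, smul_eq_mul]
  unfold co
  rw [hev.iteratedDeriv_eq k, iteratedDeriv_fun_add hPφ.contDiffAt hD.contDiffAt, hord k hk,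
    add_zero]

theorem main (h1 : S_LITT) (h2 : S_PARS) : S_ROG := by
  intro φ hφ f R hR0 hR1 hf n
  have hφa : AnalyticAt ℂ φ 0 := hφ.diff.analyticAt (ball_mem_nhds _ one_pos)
  have hfa : AnalyticAt ℂ f 0 := hf.analyticAt (ball_mem_nhds _ hR0)
  have hkey : ∀ r : ℝ, 0 < r → r < 1 →
      ∑ k ∈ Finset.range n, ‖co (fun z => f (φ z)) k‖ ^ 2 * r ^ (2 * k) ≤
        ∑ k ∈ Finset.range n, ‖co f k‖ ^ 2 * r ^ (2 * k) := by
    intro r hr0 hr1
    have hdiff : DifferentiableOn ℂ (fun z => (tp f n).eval (φ z)) (ball 0 1) :=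
      (tp f n).differentiable.comp_differentiableOn hφ.diff
    have hsum := h2 (fun z => (tp f n).eval (φ z)) 1 r hr0 hr1 hdiff
    have hle : ∑ k ∈ Finset.range n, ‖co (fun z => f (φ z)) k‖ ^ 2 * r ^ (2 * k) ≤
        av r (fun z => ‖(tp f n).eval (φ z)‖ ^ 2) := by
      have e : ∑ k ∈ Finset.range n, ‖co (fun z => f (φ z)) k‖ ^ 2 * r ^ (2 * k) =
          ∑ k ∈ Finset.range n, ‖co (fun z => (tp f n).eval (φ z)) k‖ ^ 2 * r ^ (2 * k) :=
        Finset.sum_congr rfl fun k hk => by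
          rw [co_comp hφa hφ.zero hfa (Finset.mem_range.1 hk)]
      rw [e]
      exact sum_le_hasSum _ (fun k _ => by positivity) hsum
    refine hle.trans ((h1 φ hφ (tp f n) r hr0 hr1).trans ?_)
    have hz : ∀ k, n ≤ k → ‖(tp f n).coeff k‖ ^ 2 * r ^ (2 * k) = 0 := by
      intro k hk
      rw [tp_coeff, if_neg (by omega)]
      simp
    calc ∑ k ∈ Finset.range ((tp f n).natDegree + 1), ‖(tp f n).coeff k‖ ^ 2 * r ^ (2 * k)
        ≤ ∑ k ∈ Finset.range (max ((tp f n).natDegree + 1) n),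
          ‖(tp f n).coeff k‖ ^ 2 * r ^ (2 * k) :=
          Finset.sum_le_sum_of_subset_of_nonneg
            (Finset.range_subset_range.2 (le_max_left _ _)) fun k _ _ => by positivity
      _ = ∑ k ∈ Finset.range n, ‖(tp f n).coeff k‖ ^ 2 * r ^ (2 * k) := by
          symm
          refine Finset.sum_subset (Finset.range_subset_range.2 (le_max_right _ _)) fun k _ hk => ?_
          exact hz k (by rw [Finset.mem_range] at hk; omega)
      _ = ∑ k ∈ Finset.range n, ‖co f k‖ ^ 2 * r ^ (2 * k) :=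
          Finset.sum_congr rfl fun k hk => by
            rw [tp_coeff, if_pos (Finset.mem_range.1 hk)]
  have hc : ∀ a : ℕ → ℝ, Tendsto (fun r : ℝ => ∑ k ∈ Finset.range n, a k * r ^ (2 * k)) (𝓝[<] 1)
      (𝓝 (∑ k ∈ Finset.range n, a k)) := by
    intro a
    have hcont : Continuous fun r : ℝ => ∑ k ∈ Finset.range n, a k * r ^ (2 * k) := by
      fun_prop
    have := hcont.tendsto 1
    simp only [one_pow, mul_one] at this
    exact this.mono_left nhdsWithin_le_nhds
  refine le_of_tendsto_of_tendsto (hc _) (hc _) ?_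
  filter_upwards [Ioo_mem_nhdsLT one_pos] with r hr
  exact hkey r hr.1 hr.2

end Pool.Agent.W366.SR.Rog
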