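import Mathlib
import Pool.Agent.W889.SR.Stm2

/-!
# A tree with no isolated child of the root
-/

set_option autoImplicit false

namespace Pool.Agent.W366.SR

open Pool.Agent.W889.SR
open Set Ordinal

/-- the tree attached to a finite set `F` -/
structure Fam {X : Type} (r : X → X → Prop) (h : ℕ → X) (F : Finset ℕ) {Y : Type}
    (s : Y → Y → Prop) (o : Y) (c : {k : ℕ // k ∉ F} → ℕ → Y) : Prop where
  tree : IsTree s
  root : ∀ y, s o y
  ch : ∀ y, Ch s o y ↔ ∃ j n, c j n = y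
  inj : ∀ j n j' n', c j n = c j' n' → j = j' ∧ n = n'
  ce : ∀ (j : {k : ℕ // k ∉ F}) n γ, CE γ r (h j) s (c j n)

lemma IsTree.forest {A : Type} {r : A → A → Prop} (h : IsTree r) : IsForest r :=
  ⟨h.refl, h.antisymm, h.trans, h.chain⟩

section

variable {l : Ordinal.{0}} {X : Type} {r : X → X → Prop} {h : ℕ → X} {g d : ℕ → Ordinal.{0}}

lemma inf_children (L : CELaws) (hS : SeqData l r h g d) {F F' : Finset ℕ} {Y Y' : Type}
    {s : Y → Y → Prop} {o : Y} {c : {k : ℕ // k ∉ F} → ℕ → Y}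
    {s' : Y' → Y' → Prop} {o' : Y'} {c' : {k : ℕ // k ∉ F'} → ℕ → Y'}
    (H : Fam r h F s o c) (H' : Fam r h F' s' o' c') (γ : Ordinal.{0})
    (hγ : ∀ j, j ∉ F → j ∈ F' → γ ≤ g j) (x : Y) (hx : Ch s o x) :
    {y | Ch s' o' y ∧ CE γ s x s' y}.Infinite := by
  obtain ⟨j, n, rfl⟩ := (H.ch x).1 hx
  have key : ∃ j' : {k : ℕ // k ∉ F'}, CE γ r (h j) r (h j') := by
    by_cases hj : (j : ℕ) ∈ F'
    · have hle : γ ≤ g j := hγ j j.2 hj
      have hfin : ∃ j' : ℕ, j' ∉ F' ∧ (j : ℕ) ≤ j' := by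
        refine ⟨F'.sup id + j + 1, ?_, by omega⟩
        intro hmem
        have := Finset.le_sup (f := id) hmem
        simp only [id] at this
        omega
      obtain ⟨j', hj', hjj'⟩ := hfin
      exact ⟨⟨j', hj'⟩, L.mono (g j) γ hle _ _ _ _ _ _ (hS.eq j j' hjj')⟩
    · exact ⟨⟨j, hj⟩, L.refl γ X r (h j)⟩
  obtain ⟨j', hj'⟩ := key
  have hinj : Function.Injective (fun n' => c' j' n') := by
    intro a b hab
    exact (H'.inj _ _ _ _ hab).2
  refine (Set.infinite_range_of_injective hinj).mono ?_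
  rintro _ ⟨n', rfl⟩
  refine ⟨(H'.ch _).2 ⟨j', n', rfl⟩, ?_⟩
  have e1 : CE γ s (c j n) r (h j) := L.symm _ _ _ _ _ _ _ (H.ce j n γ)
  have e2 : CE γ s (c j n) r (h j') := L.trans _ _ _ _ _ _ _ _ _ _ e1 hj'
  exact L.trans _ _ _ _ _ _ _ _ _ _ e2 (H'.ce j' n' γ)

lemma cone_eq (L : CELaws) {Y : Type} {s : Y → Y → Prop} (hs : IsTree s) (o : Y) :
    {z | z = o ∨ ∃ c ∈ {c | Ch s o c}, s c z} = {z | s o z} := by
  ext z
  constructor
  · rintro (h1 | ⟨c, hc, h2⟩)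
    · change s o z
      rw [h1]
      exact hs.refl o
    · exact hs.trans _ _ _ hc.1 h2
  · intro hz
    by_cases hzo : o = z
    · exact Or.inl hzo.symm
    · obtain ⟨c, hc, h2⟩ := L.exc Y s hs o z hz hzo
      exact Or.inr ⟨c, hc, h2⟩

lemma half (L : CELaws) (hFR : FR_stmt) (hS : SeqData l r h g d) {F F' : Finset ℕ} {Y Y' : Type}
    {s : Y → Y → Prop} {o : Y} {c : {k : ℕ // k ∉ F} → ℕ → Y}
    {s' : Y' → Y' → Prop} {o' : Y'} {c' : {k : ℕ // k ∉ F'} → ℕ → Y'}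
    (H : Fam r h F s o c) (H' : Fam r h F' s' o' c') (γ : Ordinal.{0})
    (hγ : ∀ j, j ∉ F → j ∈ F' → γ ≤ g j) (hγ' : ∀ j, j ∉ F' → j ∈ F → γ ≤ g j) :
    BF γ s {z | s o z} (fun _ : Unit => o) s' {z | s' o' z} (fun _ : Unit => o') := by
  have h1 := hFR γ Y Y' s s' (IsTree.forest H.tree) (IsTree.forest H'.tree) o o'
    {c | Ch s o c} {c | Ch s' o' c} (fun c hc => hc) (fun c hc => hc)
    (fun x hx => inf_children L hS H H' γ hγ x hx)
    (fun y hy => by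
      refine (inf_children L hS H' H γ hγ' y hy).mono ?_
      rintro z ⟨hz1, hz2⟩
      exact ⟨hz1, L.symm _ _ _ _ _ _ _ hz2⟩)
    Unit (fun _ => o) (fun _ => o') [] ?_
  · rw [cone_eq L H.tree, cone_eq L H'.tree] at h1
    exact h1
  · constructor
    · intro p hp
      exact absurd hp (List.not_mem_nil)
    · intro p hp
      exact absurd hp (List.not_mem_nil)
    · intro i
      exact Or.inl ⟨rfl, rfl⟩
    · intro p hp
      exact absurd hp (List.not_mem_nil)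
    · intro p hp
      exact absurd hp (List.not_mem_nil)

lemma ce_fam (L : CELaws) (hFR : FR_stmt) (hS : SeqData l r h g d) {F F' : Finset ℕ} {Y Y' : Type}
    {s : Y → Y → Prop} {o : Y} {c : {k : ℕ // k ∉ F} → ℕ → Y}
    {s' : Y' → Y' → Prop} {o' : Y'} {c' : {k : ℕ // k ∉ F'} → ℕ → Y'}
    (H : Fam r h F s o c) (H' : Fam r h F' s' o' c') (γ : Ordinal.{0})
    (hγ : ∀ j, j ∉ F → j ∈ F' → γ ≤ g j) (hγ' : ∀ j, j ∉ F' → j ∈ F → γ ≤ g j) :
    CE γ s o s' o' :=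
  ⟨half L hFR hS H H' γ hγ hγ', half L hFR hS H' H γ hγ' hγ⟩

lemma nce_fam (L : CELaws) (hS : SeqData l r h g d) {F F' : Finset ℕ} {Y Y' : Type}
    {s : Y → Y → Prop} {o : Y} {c : {k : ℕ // k ∉ F} → ℕ → Y}
    {s' : Y' → Y' → Prop} {o' : Y'} {c' : {k : ℕ // k ∉ F'} → ℕ → Y'}
    (H : Fam r h F s o c) (H' : Fam r h F' s' o' c') (k : ℕ) (δ : Ordinal.{0})
    (hδ : ∀ i, i ≤ k → d i ≤ δ) (hk : k ∉ F) (hk' : k ∈ F') : ¬ CE (δ + 2) s o s' o' := by
  intro hce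
  obtain ⟨y, hy, hyc⟩ := L.child δ Y Y' s s' (IsTree.forest H.tree) (IsTree.forest H'.tree) o o'
    (c ⟨k, hk⟩ 0) hce ((H.ch _).2 ⟨_, _, rfl⟩)
  obtain ⟨j, m, rfl⟩ := (H'.ch y).1 hy
  have hjk : (j : ℕ) ≠ k := by
    intro hjk
    apply j.2
    rw [hjk]
    exact hk'
  have e1 : CE δ r (h k) s (c ⟨k, hk⟩ 0) := H.ce ⟨k, hk⟩ 0 δ
  have e2 : CE δ r (h k) s' (c' j m) := L.trans _ _ _ _ _ _ _ _ _ _ e1 hyc
  have e3 : CE δ r (h k) r (h j) :=
    L.trans _ _ _ _ _ _ _ _ _ _ e2 (L.symm _ _ _ _ _ _ _ (H'.ce j m δ))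
  rcases Nat.lt_or_gt_of_ne hjk with hlt | hgt
  · exact hS.ne j k hlt (L.mono δ (d j) (hδ j hlt.le) _ _ _ _ _ _ (L.symm _ _ _ _ _ _ _ e3))
  · exact hS.ne k j hgt (L.mono δ (d k) (hδ k le_rfl) _ _ _ _ _ _ e3)

end

theorem m0 : M0_stmt := by
  classical
  intro L hFR hSUM l hl X _ r h g d hr hS
  have step : ∀ F : Finset ℕ, ∃ (Y : Type) (_ : Countable Y) (s : Y → Y → Prop) (o : Y)
      (c : {k : ℕ // k ∉ F} → ℕ → Y), Fam r h F s o c := by
    intro F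
    obtain ⟨Y, hY, s, o, c, h1, h2, h3, h4, h5⟩ := hSUM L {k : ℕ // k ∉ F} (fun _ => X)
      (fun _ => r) (fun j => h j) (fun _ => hr)
    exact ⟨Y, hY, s, o, c, h1, h2, h3, h4, h5⟩
  choose Y hY sF oF cF H using step
  haveI := hY
  obtain ⟨M, hM, s, o, C, h1, h2, h3, h4, h5⟩ := hSUM L (Finset ℕ) Y sF oF (fun F => (H F).tree)
  refine ⟨M, hM, s, o, h1, h2, ⟨C ∅ 0, (h3 _).2 ⟨_, _, rfl⟩⟩, ?_⟩
  intro γ hγ
  obtain ⟨k, hk⟩ := hS.cof γ hγ
  set δ : Ordinal.{0} := (Finset.range (k + 1)).sup d with hδ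
  have hδl : δ < l := by
    rw [hδ, Finset.sup_lt_iff]
    · intro i _
      exact hS.d_lt i
    · exact hl.1
  have hδi : ∀ i, i ≤ k → d i ≤ δ := by
    intro i hi
    exact Finset.le_sup (f := d) (Finset.mem_range.2 (by omega))
  have hδ2 : δ + 2 < l := by
    have e : δ + 2 = δ + 1 + 1 := by
      rw [add_assoc, one_add_one_eq_two]
    rw [e]
    exact hl.2 _ (hl.2 _ hδl)
  refine ⟨δ + 2, hδ2, ?_⟩
  intro c hc
  obtain ⟨F, n, rfl⟩ := (h3 c).1 hc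
  -- transfer
  have tr : ∀ (F' : Finset ℕ) (ε : Ordinal.{0}), CE ε s (C F n) s (C F' 0) ↔
      CE ε (sF F) (oF F) (sF F') (oF F') := by
    intro F' ε
    constructor
    · intro hce
      have e1 : CE ε (sF F) (oF F) s (C F' 0) := L.trans _ _ _ _ _ _ _ _ _ _ (h5 F n ε) hce
      exact L.trans _ _ _ _ _ _ _ _ _ _ e1 (L.symm _ _ _ _ _ _ _ (h5 F' 0 ε))
    · intro hce
      have e1 : CE ε s (C F n) (sF F') (oF F') :=
        L.trans _ _ _ _ _ _ _ _ _ _ (L.symm _ _ _ _ _ _ _ (h5 F n ε)) hce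
      exact L.trans _ _ _ _ _ _ _ _ _ _ e1 (h5 F' 0 ε)
  by_cases hkF : k ∈ F
  · have hk' : k ∉ F.erase k := Finset.notMem_erase k F
    refine ⟨C (F.erase k) 0, (h3 _).2 ⟨_, _, rfl⟩, (tr _ _).2 ?_, fun hcon => ?_⟩
    · refine ce_fam L hFR hS (H F) (H (F.erase k)) γ ?_ ?_
      · intro j hj hj'
        exact absurd (Finset.mem_of_mem_erase hj') hj
      · intro j hj hj'
        have : j = k := by
          by_contra hne
          exact hj (Finset.mem_erase.2 ⟨hne, hj'⟩)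
        rw [this]
        exact hk
    · exact nce_fam L hS (H (F.erase k)) (H F) k δ hδi hk' hkF
        (L.symm _ _ _ _ _ _ _ ((tr _ _).1 hcon))
  · refine ⟨C (insert k F) 0, (h3 _).2 ⟨_, _, rfl⟩, (tr _ _).2 ?_, fun hcon => ?_⟩
    · refine ce_fam L hFR hS (H F) (H (insert k F)) γ ?_ ?_
      · intro j hj hj'
        rcases Finset.mem_insert.1 hj' with h6 | h6
        · rw [h6]
          exact hk
        · exact absurd h6 hj
      · intro j hj hj'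
        exact absurd (Finset.mem_insert_of_mem hj') hj
    · exact nce_fam L hS (H F) (H (insert k F)) k δ hδi hkF (Finset.mem_insert_self k F)
        ((tr _ _).1 hcon)

end Pool.Agent.W366.SR
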